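import Mathlib
import Pool.Agent.R945.LD.BThree

/-! Arithmetic lemmas for the determinants of Sun for `p ≡ 3 (mod 4)`. -/

set_option autoImplicit false
set_option linter.unusedSectionVars false

namespace Pool.Agent.T6.H3.SunThree

open Finset Pool.Agent.R945.LD

variable {p : ℕ} [Fact p.Prime]

/-- the Legendre symbol of `i` -/
noncomputable def f (p : ℕ) [Fact p.Prime] (i : ℕ) : ℤ := q p (i : ZMod p)

/-- partial sums of the Legendre symbol -/
noncomputable def A (p : ℕ) [Fact p.Prime] (t : ℕ) : ℤ := ∑ i ∈ range (t + 1), f p i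

/-- the sum of `f k f i` over `k + i = c` -/
noncomputable def r (p : ℕ) [Fact p.Prime] (c : ℕ) : ℤ := ∑ k ∈ range c, f p (k + 1) * f p (c - 1 - k)

/-- the sum of `f k f i` over `k + i ≤ n` -/
noncomputable def u (p : ℕ) [Fact p.Prime] (n : ℕ) : ℤ := ∑ k ∈ range n, f p (k + 1) * A p (n - 1 - k)

lemma f_zero : f p 0 = 0 := by simp [f]

lemma f_mul (a b : ℕ) : f p (a * b) = f p a * f p b := by
  unfold f; push_cast; rw [q_mul]

lemma cast_ne {a : ℕ} (h0 : 0 < a) (hp : a < p) : (a : ZMod p) ≠ 0 := by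
  rw [Ne, ZMod.natCast_eq_zero_iff]
  intro h
  have := Nat.le_of_dvd h0 h
  omega

lemma f_sq {a : ℕ} (h0 : 0 < a) (hp : a < p) : f p a * f p a = 1 := q_sq (cast_ne h0 hp)

lemma f_pm {a : ℕ} (h0 : 0 < a) (hp : a < p) : f p a = 1 ∨ f p a = -1 :=
  mul_self_eq_one_iff.mp (f_sq h0 hp)

lemma f_J (k : ℕ) : f p (k + 1) = q p (J p k) := by
  unfold f J; push_cast; rfl

lemma A_zero : A p 0 = 0 := by simp [A, f_zero]

lemma A_succ (t : ℕ) : A p (t + 1) = A p t + f p (t + 1) := by
  unfold A; rw [sum_range_succ]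

lemma u_succ (n : ℕ) : u p (n + 1) = u p n + r p (n + 1) := by
  unfold u r
  rw [sum_range_succ, sum_range_succ, ← add_assoc, ← sum_add_distrib]
  have e1 : n + 1 - 1 - n = 0 := by omega
  rw [e1, A_zero, f_zero]
  simp only [mul_zero, add_zero]
  apply sum_congr rfl
  intro k hk
  rw [mem_range] at hk
  have e2 : n + 1 - 1 - k = (n - 1 - k) + 1 := by omega
  rw [e2, A_succ]
  ring

/-- first product -/
lemma r_even (e : ℕ) : r p (2 * e + 2) =
    2 * ∑ k ∈ range e, f p (k + 1) * f p (2 * e + 1 - k) + f p (e + 1) * f p (e + 1) := by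
  unfold r
  rw [sum_range_succ]
  have e0 : 2 * e + 2 - 1 - (2 * e + 1) = 0 := by omega
  rw [e0, f_zero, mul_zero, add_zero]
  have e1 : 2 * e + 1 = e + (e + 1) := by ring
  rw [e1, sum_range_add, sum_range_succ', add_zero]
  have e2 : ∑ k ∈ range e, f p (k + 1) * f p (2 * e + 2 - 1 - k) =
      ∑ k ∈ range e, f p (k + 1) * f p (2 * e + 1 - k) := by
    apply sum_congr rfl
    intro k _
    congr 2
  have e3 : ∑ k ∈ range e, f p (e + (k + 1) + 1) * f p (2 * e + 2 - 1 - (e + (k + 1))) =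
      ∑ k ∈ range e, f p (k + 1) * f p (2 * e + 1 - k) := by
    rw [← sum_range_reflect]
    apply sum_congr rfl
    intro k hk
    rw [mem_range] at hk
    rw [mul_comm]
    congr 2
    · omega
    · omega
  have e4 : 2 * e + 2 - 1 - e = e + 1 := by omega
  rw [e2, e3, e4, ← e1]
  ring

lemma r_odd (e : ℕ) : r p (2 * e + 3) =
    2 * ∑ k ∈ range (e + 1), f p (k + 1) * f p (2 * e + 2 - k) := by
  unfold r
  rw [sum_range_succ]
  have e0 : 2 * e + 3 - 1 - (2 * e + 2) = 0 := by omega
  rw [e0, f_zero, mul_zero, add_zero]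
  have e1 : 2 * e + 2 = (e + 1) + (e + 1) := by ring
  rw [e1, sum_range_add]
  have e2 : ∑ k ∈ range (e + 1), f p (k + 1) * f p (2 * e + 3 - 1 - k) =
      ∑ k ∈ range (e + 1), f p (k + 1) * f p (e + 1 + (e + 1) - k) := by
    apply sum_congr rfl
    intro k _
    congr 2
    omega
  have e3 : ∑ k ∈ range (e + 1), f p (e + 1 + k + 1) * f p (2 * e + 3 - 1 - (e + 1 + k)) =
      ∑ k ∈ range (e + 1), f p (k + 1) * f p (e + 1 + (e + 1) - k) := by
    rw [← sum_range_reflect]
    apply sum_congr rfl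
    intro k hk
    rw [mem_range] at hk
    rw [mul_comm]
    congr 2
    · omega
    · omega
  rw [e2, e3]
  ring

/-- the product of the symbols up to `t` -/
noncomputable def Ph (p : ℕ) [Fact p.Prime] (t : ℕ) : ℤ := ∏ i ∈ range t, f p (i + 1)

lemma Ph_sq {t : ℕ} (ht : t < p) : Ph p t * Ph p t = 1 := by
  unfold Ph
  rw [← prod_mul_distrib]
  apply prod_eq_one
  intro i hi
  rw [mem_range] at hi
  exact f_sq (by omega) (by omega)

lemma pi_even (e : ℕ) : (∏ k ∈ range e, f p (k + 1) * f p (2 * e + 1 - k)) * f p (e + 1) =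
    Ph p (2 * e + 1) := by
  unfold Ph
  have e1 : 2 * e + 1 = e + (e + 1) := by ring
  rw [prod_mul_distrib]
  conv_rhs => rw [e1, prod_range_add, prod_range_succ', add_zero]
  have e3 : ∏ k ∈ range e, f p (e + (k + 1) + 1) = ∏ k ∈ range e, f p (2 * e + 1 - k) := by
    rw [← prod_range_reflect]
    apply prod_congr rfl
    intro k hk
    rw [mem_range] at hk
    congr 1
    omega
  rw [e3]
  ring

lemma pi_odd (e : ℕ) : (∏ k ∈ range (e + 1), f p (k + 1) * f p (2 * e + 2 - k)) =
    Ph p (2 * e + 2) := by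
  unfold Ph
  have e1 : 2 * e + 2 = (e + 1) + (e + 1) := by ring
  rw [prod_mul_distrib]
  conv_rhs => rw [e1, prod_range_add]
  congr 1
  rw [← prod_range_reflect]
  apply prod_congr rfl
  intro k hk
  rw [mem_range] at hk
  congr 1
  omega

lemma pi_mul (e : ℕ) (he : 2 * e + 2 < p) :
    (∏ k ∈ range e, f p (k + 1) * f p (2 * e + 1 - k)) *
      (∏ k ∈ range (e + 1), f p (k + 1) * f p (2 * e + 2 - k)) = f p 2 := by
  have h1 := pi_even (p := p) e
  have h2 := pi_odd (p := p) e
  have h3 : Ph p (2 * e + 2) = Ph p (2 * e + 1) * f p (2 * e + 2) := by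
    unfold Ph; rw [prod_range_succ]
  have h4 : f p (2 * e + 2) = f p 2 * f p (e + 1) := by
    rw [← f_mul]; congr 1
  have h5 := f_sq (p := p) (a := e + 1) (by omega) (by omega)
  have h6 := Ph_sq (p := p) (t := 2 * e + 1) (by omega)
  have h7 : (∏ k ∈ range e, f p (k + 1) * f p (2 * e + 1 - k)) = Ph p (2 * e + 1) * f p (e + 1) := by
    rw [← h1]
    linear_combination (-(∏ k ∈ range e, f p (k + 1) * f p (2 * e + 1 - k))) * h5
  rw [h2, h3, h7, h4]
  linear_combination (f p 2 * f p (e + 1) * f p (e + 1)) * h6 + f p 2 * h5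

lemma pm_of_prod {ι : Type*} (s : Finset ι) (g : ι → ℤ) (hg : ∀ i ∈ s, g i = 1 ∨ g i = -1) :
    ∏ i ∈ s, g i = 1 ∨ ∏ i ∈ s, g i = -1 := by
  have : (∏ i ∈ s, g i) * (∏ i ∈ s, g i) = 1 := by
    rw [← prod_mul_distrib]
    apply prod_eq_one
    intro i hi
    rcases hg i hi with h | h <;> rw [h] <;> norm_num
  exact mul_self_eq_one_iff.mp this

/-- the step modulo eight -/
lemma step_eight (e : ℕ) (he : 2 * e + 2 < p) :
    (8 : ℤ) ∣ r p (2 * e + 2) + r p (2 * e + 3) - (4 * e + 1 + 2 * f p 2) := by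
  have g1 : ∀ k ∈ range e, f p (k + 1) * f p (2 * e + 1 - k) = 1 ∨
      f p (k + 1) * f p (2 * e + 1 - k) = -1 := by
    intro k hk
    rw [mem_range] at hk
    rcases f_pm (p := p) (a := k + 1) (by omega) (by omega) with h | h <;>
      rcases f_pm (p := p) (a := 2 * e + 1 - k) (by omega) (by omega) with h' | h' <;>
      rw [h, h'] <;> norm_num
  have g2 : ∀ k ∈ range (e + 1), f p (k + 1) * f p (2 * e + 2 - k) = 1 ∨
      f p (k + 1) * f p (2 * e + 2 - k) = -1 := by
    intro k hk
    rw [mem_range] at hk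
    rcases f_pm (p := p) (a := k + 1) (by omega) (by omega) with h | h <;>
      rcases f_pm (p := p) (a := 2 * e + 2 - k) (by omega) (by omega) with h' | h' <;>
      rw [h, h'] <;> norm_num
  have h1 := prod_pm_mod_four _ _ g1
  have h2 := prod_pm_mod_four _ _ g2
  have k1 := pm_of_prod _ _ g1
  have k2 := pm_of_prod _ _ g2
  have hm := pi_mul (p := p) e he
  rw [card_range] at h1 h2
  rw [r_even, r_odd, f_sq (by omega) (by omega)]
  push_cast at h1 h2
  rcases k1 with a | a <;> rcases k2 with b | b <;> rw [a] at h1 hm <;> rw [b] at h2 hm <;>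
    rw [← hm] <;> omega

lemma r_zero : r p 0 = 0 := by simp [r]
lemma r_one : r p 1 = 0 := by simp [r, f_zero]
lemma u_zero : u p 0 = 0 := by simp [u]

/-- the sum `u` modulo eight -/
lemma u_mod (m : ℕ) (hm : 2 * m + 1 < p) :
    (8 : ℤ) ∣ u p (2 * m + 1) - (2 * m ^ 2 - m + 2 * m * f p 2) := by
  induction m with
  | zero => simp [u_succ, u_zero, r_one]
  | succ m ih =>
    have h1 := ih (by omega)
    have h2 := step_eight (p := p) m (by omega)
    have e : 2 * (m + 1) + 1 = (2 * m + 1) + 1 + 1 := by ring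
    rw [e, u_succ, u_succ]
    have e1 : 2 * m + 1 + 1 = 2 * m + 2 := by ring
    have e2 : 2 * m + 1 + 1 + 1 = 2 * m + 3 := by ring
    rw [e2, e1]
    have h := dvd_add h1 h2
    have e5 : u p (2 * m + 1) + r p (2 * m + 2) + r p (2 * m + 3) -
        (2 * ((m + 1 : ℕ) : ℤ) ^ 2 - ((m + 1 : ℕ) : ℤ) + 2 * ((m + 1 : ℕ) : ℤ) * f p 2) =
        u p (2 * m + 1) - (2 * (m : ℤ) ^ 2 - m + 2 * m * f p 2) +
        (r p (2 * m + 2) + r p (2 * m + 3) - (4 * m + 1 + 2 * f p 2)) := by
      push_cast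
      ring
    rw [e5]
    exact h

section three

variable (h3 : p % 4 = 3)

include h3

lemma f_sub {a : ℕ} (ha : a ≤ p) : f p (p - a) = - f p a := by
  unfold f
  rw [Nat.cast_sub ha, ZMod.natCast_self, zero_sub, q_odd h3]

lemma A_sym {n : ℕ} (hn : p = 2 * n + 1) (k : ℕ) (hk : k ≤ n) : A p (n + k) = A p (n - k) := by
  induction k with
  | zero => simp
  | succ k ih =>
    have h1 := ih (by omega)
    have e : n - k = (n - (k + 1)) + 1 := by omega
    rw [e, A_succ] at h1
    rw [← add_assoc, A_succ, h1]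
    have h2 : n + k + 1 = p - (n - (k + 1) + 1) := by omega
    rw [h2, f_sub h3 (by omega)]
    ring

lemma sum_shift {n : ℕ} (k : ℕ) : ∑ j ∈ range n, f p (k + 1 + (j + 1)) = A p (n + k + 1) - A p (k + 1) := by
  unfold A
  have e : n + k + 1 + 1 = (k + 1 + 1) + n := by ring
  rw [e, sum_range_add, add_sub_cancel_left]
  apply sum_congr rfl
  intro j _
  congr 1
  omega

/-- the column sums -/
lemma col {n : ℕ} (hn : p = 2 * n + 1) (k : ℕ) (hk : k < n) :
    ∑ j ∈ range n, (q p (J p j + J p k) + q p (J p j - J p k)) =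
      2 * A p (n - 1 - k) - A p (k + 1) - A p k := by
  rw [sum_add_distrib]
  have e1 : ∑ j ∈ range n, q p (J p j + J p k) = A p (n - 1 - k) - A p (k + 1) := by
    have h1 : ∑ j ∈ range n, q p (J p j + J p k) = ∑ j ∈ range n, f p (k + 1 + (j + 1)) := by
      apply sum_congr rfl
      intro j _
      unfold f J
      push_cast
      congr 1
      ring
    rw [h1, sum_shift h3, add_assoc, A_sym h3 hn (k + 1) (by omega)]
    congr 2
    omega
  have e2 : ∑ j ∈ range n, q p (J p j - J p k) = A p (n - 1 - k) - A p k := by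
    have hsp : n = k + (n - k) := by omega
    conv_lhs => rw [hsp]
    rw [sum_range_add]
    have h1 : ∑ x ∈ range k, q p (J p x - J p k) = - A p k := by
      unfold A
      rw [sum_range_succ', f_zero, add_zero, ← sum_range_reflect, ← sum_neg_distrib]
      apply sum_congr rfl
      intro j hj
      rw [mem_range] at hj
      unfold f J
      rw [← q_odd h3]
      congr 1
      have e3 : ((k - 1 - j : ℕ) : ZMod p) = (k : ZMod p) - 1 - j := by
        rw [Nat.sub_sub, Nat.cast_sub (by omega)]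
        push_cast
        ring
      rw [e3]
      push_cast
      have e4 : (((k - 1 - (k - 1 - j)) : ℕ) : ZMod p) = (j : ZMod p) := by
        congr 1
        omega
      ring
    have h2 : ∑ x ∈ range (n - k), q p (J p (k + x) - J p k) = A p (n - 1 - k) := by
      unfold A
      have e3 : n - 1 - k + 1 = n - k := by omega
      rw [e3]
      apply sum_congr rfl
      intro j _
      unfold f J
      congr 1
      push_cast
      ring
    rw [h1, h2]
    ring
  rw [e1, e2]
  ring

lemma tele (n : ℕ) : ∑ k ∈ range n, f p (k + 1) * (A p (k + 1) + A p k) = A p n ^ 2 := by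
  induction n with
  | zero => simp [A_zero]
  | succ n ih =>
    rw [sum_range_succ, ih, A_succ]
    ring

/-- the double sum -/
lemma dbl {n : ℕ} (hn : p = 2 * n + 1) :
    ∑ j : Fin n, ∑ k : Fin n, (q p (J p j + J p k) + q p (J p j - J p k)) * q p (J p k) =
      2 * u p n - A p n ^ 2 := by
  rw [Finset.sum_comm]
  have h1 : ∀ k : Fin n, ∑ j : Fin n, (q p (J p j + J p k) + q p (J p j - J p k)) * q p (J p k) =
      f p (k + 1) * (2 * A p (n - 1 - k) - A p (k + 1) - A p k) := by
    intro k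
    rw [← sum_mul, Fin.sum_univ_eq_sum_range (fun j => q p (J p j + J p k) + q p (J p j - J p k)),
      col h3 hn k k.2, f_J]
    ring
  rw [Finset.sum_congr rfl (fun k _ => h1 k),
    Fin.sum_univ_eq_sum_range (fun k => f p (k + 1) * (2 * A p (n - 1 - k) - A p (k + 1) - A p k))]
  rw [← tele h3 n]
  unfold u
  rw [mul_sum, ← sum_sub_distrib]
  apply sum_congr rfl
  intro k _
  ring

/-- the divisibility by sixteen -/
theorem sixteen {n : ℕ} (hn : p = 2 * n + 1) :
    (16 : ℤ) ∣ A p n ^ 2 + n * (2 * u p n - A p n ^ 2) := by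
  obtain ⟨m, hm⟩ : ∃ m, n = 2 * m + 1 := ⟨n / 2, by omega⟩
  have hp1 : 2 * m + 1 < p := by omega
  have hu := u_mod (p := p) m hp1
  rw [← hm] at hu
  -- parity of `A p n`
  have hodd : (2 : ℤ) ∣ A p n - 1 := by
    have h1 : A p n = ∑ i ∈ range n, f p (i + 1) := by
      unfold A; rw [sum_range_succ', f_zero, add_zero]
    have h2 : A p n - n = ∑ i ∈ range n, (f p (i + 1) - 1) := by
      rw [sum_sub_distrib, h1]; simp
    have h4 : (2 : ℤ) ∣ A p n - n := by
      rw [h2]
      apply dvd_sum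
      intro i hi
      rw [mem_range] at hi
      rcases f_pm (p := p) (a := i + 1) (by omega) (by omega) with h | h <;> rw [h] <;> norm_num
    omega
  have hsq : (8 : ℤ) ∣ A p n ^ 2 - 1 := by
    obtain ⟨c, hc⟩ := hodd
    have e : A p n = 2 * c + 1 := by linarith
    rw [e]
    have e2 : (2 * c + 1) ^ 2 - 1 = 4 * (c * (c + 1)) := by ring
    rw [e2]
    obtain ⟨d, hd⟩ := Int.even_mul_succ_self c
    rw [hd]
    exact ⟨d, by ring⟩
  have hf2 : f p 2 = if p % 8 = 7 then 1 else -1 := by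
    show quadraticChar (ZMod p) ((2 : ℕ) : ZMod p) = _
    have hp2 : p ≠ 2 := by omega
    rw [show ((2 : ℕ) : ZMod p) = 2 by norm_num, quadraticChar_two (ringChar_ne hp2), ZMod.card,
      ZMod.χ₈_nat_eq_if_mod_eight, if_neg (by omega)]
    by_cases h8 : p % 8 = 7
    · rw [if_pos (by omega), if_pos h8]
    · rw [if_neg (by omega), if_neg h8]
  obtain ⟨a, ha⟩ := hu
  obtain ⟨b, hb⟩ := hsq
  have ha' : u p n = 8 * a + (2 * m ^ 2 - m + 2 * m * f p 2) := by linarith
  have hb' : A p n ^ 2 = 8 * b + 1 := by linarith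
  have hnm : (n : ℤ) = 2 * m + 1 := by rw [hm]; push_cast; ring
  rw [ha', hb', hnm, hf2]
  by_cases h8 : p % 8 = 7
  · rw [if_pos h8]
    obtain ⟨c, hc⟩ : ∃ c : ℤ, (m : ℤ) = 2 * c + 1 := by
      refine ⟨((m / 2 : ℕ) : ℤ), ?_⟩
      have : m % 2 = 1 := by omega
      omega
    rw [hc]
    refine ⟨a * (2 * (2 * c + 1) + 1) - b * (2 * c + 1) + (2 * c + 1) ^ 2 * (c + 1), ?_⟩
    ring
  · rw [if_neg h8]
    obtain ⟨c, hc⟩ : ∃ c : ℤ, (m : ℤ) = 2 * c := by
      refine ⟨((m / 2 : ℕ) : ℤ), ?_⟩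
      have : m % 2 = 0 := by omega
      omega
    rw [hc]
    refine ⟨a * (2 * (2 * c) + 1) - b * (2 * c) + c * ((2 * c) ^ 2 - 2 * c - 1), ?_⟩
    ring

/-- the sum of a column weighted by the symbols -/
lemma sum_chiB {m : ℕ} (hm : p = 2 * m + 1) (k : Fin m) :
    ∑ j : Fin m, q p (J p j) * (q p (J p j + J p k) + q p (J p j - J p k)) = -1 := by
  have hp2 : p ≠ 2 := by omega
  have h := fold m hm (fun c => q p c * (q p (c + J p k) + q p (c - J p k)))
  have h1 : ∑ c : ZMod p, q p c * (q p (c + J p k) + q p (c - J p k)) = -2 := by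
    have e : ∀ c : ZMod p, q p c * (q p (c + J p k) + q p (c - J p k)) =
        q p c * q p (c + J p k) + q p c * q p (c + (-J p k)) := by
      intro c; rw [sub_eq_add_neg]; ring
    rw [Finset.sum_congr rfl (fun c _ => e c), sum_add_distrib, q_corr hp2, q_corr hp2,
      if_neg (J_ne hm k), if_neg (neg_ne_zero.mpr (J_ne hm k))]
    norm_num
  have h2 : ∀ j : Fin m, q p (J p j) * (q p (J p j + J p k) + q p (J p j - J p k)) +
      q p (-J p j) * (q p (-J p j + J p k) + q p (-J p j - J p k)) =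
      2 * (q p (J p j) * (q p (J p j + J p k) + q p (J p j - J p k))) := by
    intro j
    have e1 : q p (-J p j + J p k) = - q p (J p j - J p k) := by
      rw [← q_odd h3]; congr 1; ring
    have e2 : q p (-J p j - J p k) = - q p (J p j + J p k) := by
      rw [← q_odd h3]; congr 1; ring
    rw [e1, e2, q_odd h3]
    ring
  rw [h1, Finset.sum_congr rfl (fun j _ => h2 j), ← mul_sum, q_zero] at h
  linarith

end three

end Pool.Agent.T6.H3.SunThree
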